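import Pool.Agent.H248Z.MDistalTower
import Pool.Agent.Helper212.Iso

namespace Pool.Agent.Results.MP_78c86a_lc.ANoBorelCriterion

open MeasureTheory Filter Topology Set
open scoped symmDiff
open Pool.Agent.H248Z.Aff Pool.Agent.H248Z.MD Pool.Agent.Helper212.Sq

/-- levels of the generators -/
def lev : Ix → ℕ
  | .le _ => 2
  | .lh _ _ _ => 2
  | .yy _ _ _ => 3
  | .zz _ _ _ => 3
  | _ => 1

theorem lev_sig (κ : ℤ) (τ : Tr) (i : Ix) :
    sig κ τ (Finsupp.single i 1) ∈ Finsupp.supported ℤ ℤ {j | lev j < lev i} := by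
  have hb : ∀ (j : Ix) (n : ℕ), lev j < n → b j ∈ Finsupp.supported ℤ ℤ {j | lev j < n} :=
    fun j n h => Finsupp.single_mem_supported ℤ 1 h
  change sig κ τ (b i) ∈ _
  rw [sig_b]
  cases i with
  | le n => exact hb _ _ (by simp [lev])
  | lh e n k => exact hb _ _ (by simp [lev])
  | yy e n k =>
    refine Submodule.add_mem _ (Submodule.sub_mem _
      (Submodule.smul_mem _ _ (hb _ _ (by simp [lev]))) ?_) ?_
    · cases e
      · exact hb _ _ (by simp [lev])
      · exact Submodule.sub_mem _ (hb _ _ (by simp [lev])) (hb _ _ (by simp [lev]))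
    · split_ifs
      · exact Submodule.smul_mem _ _ (hb _ _ (by simp [lev]))
      · exact Submodule.zero_mem _
  | zz e s k =>
    refine Submodule.sub_mem _ (Submodule.smul_mem _ _ (hb _ _ (by simp [lev]))) ?_
    split_ifs
    · cases e
      · exact hb _ _ (by simp [lev])
      · exact Submodule.sub_mem _ (hb _ _ (by simp [lev])) (hb _ _ (by simp [lev]))
    · exact Submodule.zero_mem _
  | _ => exact Submodule.zero_mem _

theorem null_mu : NullSingletonClass (mu Ix) := by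
  obtain ⟨x, hx⟩ := exists_pr_ne (γ := b (.te 0)) (by simp [b])
  have : Nontrivial (K Ix) := ⟨x, 0, fun h => hx (by rw [h, b, pr_single]; rfl)⟩
  exact Measure.IsAddHaarMeasure.nullSingletonClass (mu Ix)

variable {e : K Ix ≃ᵐ unitInterval} (he : MeasurePreserving e (mu Ix) lam)

/-- transport to the unit interval -/
noncomputable def tp (φ : K Ix ≃ₜ K Ix) (hφ : MeasurePreserving φ (mu Ix) (mu Ix)) : Pre :=
  ⟨e.symm.trans (φ.toMeasurableEquiv.trans e), he.comp (hφ.comp (he.symm e))⟩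

/-- the systems -/
noncomputable def sy (κ : ℤ) (τ : Tr) : Pre := tp he (TH (good κ τ)) (TT_mp (good κ τ))

theorem sy_apply (κ : ℤ) (τ : Tr) (x : unitInterval) :
    (sy he κ τ).1 x = e (TT (sig κ τ) io (e.symm x)) := rfl

theorem sy_erg (κ : ℤ) (τ : Tr) : Ergodic (sy he κ τ).1 lam :=
  he.ergodic_conjugate_iff.mpr (TT_ergodic (good κ τ))

theorem sy_distal (κ : ℤ) (τ : Tr) : MDistal (cls (sy he κ τ)) :=
  mdistal (good κ τ) e he _ (fun x => by rw [sy_apply, e.symm_apply_apply]) lev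
    (fun i => by cases i <;> simp [lev]) (fun i => by cases i <;> simp [lev]) (lev_sig κ τ)

theorem image_ae {S S' : Pre} (h : cls S = cls S') (A : Set unitInterval) :
    S.1 '' A =ᵐ[lam] S'.1 '' A := by
  have h1 : ∀ᵐ x ∂lam, S.1 x = S'.1 x := Quotient.exact h
  have h2 := (S'.2.symm S'.1).quasiMeasurePreserving.ae h1
  rw [S.1.image_eq_preimage_symm, S'.1.image_eq_preimage_symm]
  filter_upwards [h2] with y hy
  rw [S'.1.apply_symm_apply] at hy
  change (S.1.symm y ∈ A) = (S'.1.symm y ∈ A)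
  conv_lhs => rw [← hy, S.1.symm_apply_apply]

theorem open_aux {Z Y : Type} [TopologicalSpace Z] [TopologicalSpace Y] [MeasurableSpace Y]
    [BorelSpace Y] [R1Space Y] (μ : Measure Y) [IsFiniteMeasure μ] [μ.InnerRegularCompactLTTop]
    [IsLocallyFiniteMeasure μ] (F : C(Z, C(Y, Y))) (hF : ∀ z, MeasurePreserving (F z) μ μ)
    (A C : Set Y) (hC : MeasurableSet C) (ε : ENNReal) :
    IsOpen {z | μ (A ∆ (F z ⁻¹' C)) < ε} := by
  rw [isOpen_iff_mem_nhds]
  intro z₀ hz₀
  have h1 := tendsto_measure_symmDiff_preimage_nhds_zero (μ := μ) (ν := μ)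
    (F.continuous.tendsto z₀) (Eventually.of_forall hF) (hF z₀) hC.nullMeasurableSet
    (measure_ne_top _ _)
  have h2 := (h1.const_add (μ (A ∆ (F z₀ ⁻¹' C)))).eventually_lt_const
    (by rw [add_zero]; exact hz₀)
  filter_upwards [h2] with z hz
  refine lt_of_le_of_lt ?_ hz
  rw [symmDiff_comm (F z ⁻¹' C)]
  exact measure_symmDiff_le _ _ _

theorem cont_aux {Z Y : Type} [TopologicalSpace Z] [TopologicalSpace Y] [MeasurableSpace Y]
    [BorelSpace Y] [R1Space Y] (μ : Measure Y) [IsFiniteMeasure μ] [μ.InnerRegularCompactLTTop]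
    [IsLocallyFiniteMeasure μ] (F : C(Z, C(Y, Y))) (hF : ∀ z, MeasurePreserving (F z) μ μ)
    (e : Y ≃ᵐ unitInterval) (he : MeasurePreserving e μ lam) (S : Z → Pre)
    (hS : ∀ z x, (S z).1 (e x) = e (F z x)) : Continuous fun z => cls (S z) := by
  rw [continuous_generateFrom_iff]
  rintro _ ⟨T, A, ε, hA, rfl⟩
  have hC : MeasurableSet (T.1 '' A) := T.1.measurableEmbedding.measurableSet_image.mpr hA
  have val : ∀ z, lam (((S z).1 '' A) ∆ (T.1 '' A))
      = μ ((e ⁻¹' A) ∆ (F z ⁻¹' (e ⁻¹' (T.1 '' A)))) := by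
    intro z
    have hm : MeasurableSet (((S z).1 '' A) ∆ (T.1 '' A)) :=
      ((S z).1.measurableEmbedding.measurableSet_image.mpr hA).symmDiff hC
    rw [← ((S z).2.comp he).measure_preimage hm.nullMeasurableSet, preimage_symmDiff]
    congr 2
    · rw [preimage_comp, preimage_image_eq _ (S z).1.injective]
    · ext x
      simp only [mem_preimage, Function.comp_apply, hS]
  convert open_aux μ F hF (e ⁻¹' A) _ (e.measurable hC) ε using 1
  ext z
  simp only [mem_preimage, mem_ofPred_eq, ← val]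
  constructor
  · rintro ⟨S', hS', hlt⟩
    have h1 : (S'.1 '' A) ∆ (T.1 '' A) =ᵐ[lam] ((S z).1 '' A) ∆ (T.1 '' A) :=
      ae_eq_set_symmDiff (image_ae hS' A) EventuallyEq.rfl
    exact (measure_congr h1).symm.trans_lt hlt
  · exact fun h => ⟨_, rfl, h⟩

/-- the family of maps -/
noncomputable def FF (κ : ℤ) : C(Tr, C(K Ix, K Ix)) :=
  ContinuousMap.curry ⟨fun p : Tr × K Ix => TT (sig κ p.1) io p.2, continuous_TT_tree κ⟩

theorem FF_coe (κ : ℤ) (τ : Tr) : ⇑(FF κ τ) = TT (sig κ τ) io := by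
  funext x
  rw [FF, ContinuousMap.curry_apply, ContinuousMap.coe_mk]

theorem continuous_sy (κ : ℤ) : Continuous fun τ => cls (sy he κ τ) :=
  cont_aux (mu Ix) (FF κ) (fun τ => by rw [FF_coe]; exact TT_mp (good κ τ)) e he _
    fun τ x => by rw [sy_apply, e.symm_apply_apply, FF_coe]

/-- No Borel set decides measure conjugacy of ergodic measure distal transformations. -/
theorem result :
    ¬ ∃ B : Set (EMPT × EMPT), @MeasurableSet (EMPT × EMPT) (borel (EMPT × EMPT)) B ∧
      ∀ p q : EMPT, MDistal p.1 → MDistal q.1 → ((p, q) ∈ B ↔ MConj p.1 q.1) := by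
  rintro ⟨B, hB, hiff⟩
  have := null_mu
  obtain ⟨e, he⟩ := exists_mp_equiv (mu Ix)
  obtain ⟨D, hD, hDm⟩ := exists_analytic_not_measurable
  obtain ⟨θ, hθ, h1, h2⟩ := exists_tree D hD
  let r : (ℕ → ℕ) → EMPT × EMPT := fun z =>
    (⟨cls (sy he 0 (θ z)), _, rfl, sy_erg he 0 (θ z)⟩,
      ⟨cls (sy he 1 (θ z)), _, rfl, sy_erg he 1 (θ z)⟩)
  have hr : Continuous r := (((continuous_sy he 0).comp hθ).subtype_mk _).prodMk
    (((continuous_sy he 1).comp hθ).subtype_mk _)
  let _ : MeasurableSpace (EMPT × EMPT) := borel _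
  have : BorelSpace (EMPT × EMPT) := ⟨rfl⟩
  apply hDm
  convert hr.measurable hB
  ext z
  rw [mem_preimage, hiff _ _ (sy_distal he 0 (θ z)) (sy_distal he 1 (θ z))]
  constructor
  · intro hz
    obtain ⟨w, hw⟩ := h1 z hz
    obtain ⟨φ, hφm, hφ⟩ := conj_of_branch (θ z) w hw
    refine ⟨_, _, tp he φ hφm, rfl, rfl, Eventually.of_forall fun x => ?_⟩
    change e (TT _ _ (e.symm x)) = e (φ (e.symm (e (TT _ _ (e.symm (e (φ.symm (e.symm x))))))))
    rw [e.symm_apply_apply, e.symm_apply_apply, hφ, φ.apply_symm_apply]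
  · rintro ⟨S, T, φ, hS, hT, hc⟩
    have a1 : ∀ᵐ x ∂lam, S.1 x = (sy he 0 (θ z)).1 x := Quotient.exact hS
    have a2 : ∀ᵐ x ∂lam, T.1 x = (sy he 1 (θ z)).1 x := Quotient.exact hT
    have a3 := φ.2.quasiMeasurePreserving.ae (hc.and a1)
    have a4 := he.quasiMeasurePreserving.ae (a3.and a2)
    refine h2 z (path_of_conj (θ z) (fun x => e.symm (φ.1 (e x)))
      ((he.symm e).comp (φ.2.comp he)) ?_)
    filter_upwards [a4] with x hx
    obtain ⟨⟨b1, b2⟩, b3⟩ := hx
    rw [φ.1.symm_apply_apply, b3, sy_apply, e.symm_apply_apply] at b1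
    rw [← b1, b2, sy_apply, e.symm_apply_apply]

end Pool.Agent.Results.MP_78c86a_lc.ANoBorelCriterion
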